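import Pool.Agent.H77.EA.Targets

/-!
# Module MC: index `q ≠ ℓ`, comparison of the numbers of `γ`-invariant characters above
-/

open scoped Classical ComplexConjugate

set_option linter.unusedSectionVars false

namespace AMe

open AMc

namespace H2MC

/-- two finite sets with maps to a type and equal fibre cardinalities -/
theorem ncard_eq_of_fibres {α β T : Type*} {S : Set α} {S' : Set β} (hS : S.Finite)
    (hS' : S'.Finite) (f : α → T) (g : β → T)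
    (h : ∀ v, {x | x ∈ S ∧ f x = v}.ncard = {y | y ∈ S' ∧ g y = v}.ncard) :
    S.ncard = S'.ncard := by
  rw [Set.ncard_eq_toFinset_card S hS, Set.ncard_eq_toFinset_card S' hS']
  have h1 : ∀ x ∈ hS.toFinset, f x ∈ hS.toFinset.image f ∪ hS'.toFinset.image g :=
    fun x hx => Finset.mem_union_left _ (Finset.mem_image_of_mem f hx)
  have h2 : ∀ y ∈ hS'.toFinset, g y ∈ hS.toFinset.image f ∪ hS'.toFinset.image g :=
    fun y hy => Finset.mem_union_right _ (Finset.mem_image_of_mem g hy)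
  rw [Finset.card_eq_sum_card_fiberwise h1, Finset.card_eq_sum_card_fiberwise h2]
  refine Finset.sum_congr rfl fun v _ => ?_
  have h3 := h v
  have e1 : {x | x ∈ S ∧ f x = v} = ((hS.toFinset.filter fun x => f x = v : Finset α) : Set α) := by
    ext x
    simp
  have e2 : {y | y ∈ S' ∧ g y = v} = ((hS'.toFinset.filter fun y => g y = v : Finset β) : Set β) := by
    ext x
    simp
  rw [e1, e2, Set.ncard_coe_finset, Set.ncard_coe_finset] at h3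
  exact h3

end H2MC

theorem mc (hP0 : T_P0) (hCB : T_CB) (hUD : T_UD) (hST : T_ST) (hS9 : T_S9) : T_MC := by
  intro F _ π hπ ℓ _ _ q hq hqℓ Γ _ _ Q _ _ s X K P t γ hPI hPK ht hNm hγ θ hθ hD hSta ψ hψ
    hcor hIH
  obtain ⟨hKX, hnor, -, -, -, hPI'⟩ := hP0 q hq Γ Q s X K t hPI
  have hPI' := hPI' P hPK ht
  have hST1 := (hST F π hπ ℓ Γ K P).1 θ hθ hD
  have hDψ := (hST1.2 ψ hψ hcor).1
  obtain ⟨hStaψ, hud⟩ := hUD F π hπ ℓ Γ X K P hKX hnor θ hθ hD hSta ψ hψ hcor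
  have hcb := (hCB F π hπ ℓ q hq hqℓ Γ Q s X K t hPI P θ hθ hD hSta).2
  have hcb' := (hCB F π hπ ℓ q hq hqℓ Γ Q s _ _ t hPI' P ψ hψ hDψ hStaψ).2
  obtain ⟨hst, hst'⟩ := hST F π hπ ℓ Γ X P
  -- the two fibres
  have main : ∀ χ ∈ IrrS X, ∀ ξ ∈ IrrS (X ⊓ Subgroup.normalizer (P : Set Γ)), Cor π X P χ ξ →
      (∃ θ₁ ∈ IrrS K, Over χ θ₁ ∧ Blk π K θ θ₁) → Blk π X χ (cj γ χ) →
      {χ' | χ' ∈ {χ | χ ∈ Abv X (K0H π ℓ K θ P) ∧ cj γ χ = χ} ∧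
        (fun z : ZA F X X => lam π χ' z) = fun z : ZA F X X => lam π χ z}.ncard =
      {ξ' | ξ' ∈ {ξ | ξ ∈ Abv (X ⊓ Subgroup.normalizer (P : Set Γ))
          (K0H π ℓ (K ⊓ Subgroup.normalizer (P : Set Γ)) ψ P) ∧ cj γ ξ = ξ} ∧
        (fun z : ZA F X X => lam π ξ' (br P z)) = fun z : ZA F X X => lam π χ z}.ncard := by
    intro χ hχ ξ hξ hc hex hinv
    obtain ⟨ψ₁, hψ₁, hov', hbl'⟩ := (hud χ hχ ξ hξ hc).1 hex
    obtain ⟨θ₁, hθ₁, hov, hbl⟩ := hex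
    obtain ⟨hDχ, hK⟩ := hcb χ hχ θ₁ hθ₁ hov hbl
    obtain ⟨-, hK'⟩ := hcb' ξ hξ ψ₁ hψ₁ hov' hbl'
    obtain ⟨-, huniq, -⟩ := (hst χ hχ hDχ).2 ξ hξ hc
    have e1 : {χ' | χ' ∈ {χ | χ ∈ Abv X (K0H π ℓ K θ P) ∧ cj γ χ = χ} ∧
        (fun z : ZA F X X => lam π χ' z) = fun z : ZA F X X => lam π χ z} =
        K0F π ℓ X χ P γ := by
      ext χ'
      constructor
      · rintro ⟨⟨h1, h2⟩, h3⟩
        exact ⟨(hK χ').2 ⟨h1, fun z hz => congrFun h3 ⟨z, hz⟩⟩, h2⟩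
      · rintro ⟨h1, h2⟩
        obtain ⟨h3, h4⟩ := (hK χ').1 h1
        exact ⟨⟨h3, h2⟩, funext fun z => h4 z z.2⟩
    have e2 : {ξ' | ξ' ∈ {ξ | ξ ∈ Abv (X ⊓ Subgroup.normalizer (P : Set Γ))
          (K0H π ℓ (K ⊓ Subgroup.normalizer (P : Set Γ)) ψ P) ∧ cj γ ξ = ξ} ∧
        (fun z : ZA F X X => lam π ξ' (br P z)) = fun z : ZA F X X => lam π χ z} =
        K0F π ℓ (X ⊓ Subgroup.normalizer (P : Set Γ)) ξ P γ := by
      ext ξ'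
      constructor
      · rintro ⟨⟨h1, h2⟩, h3⟩
        exact ⟨(hK' ξ').2 ⟨h1, (huniq ξ' h1.1).1 fun z hz => (congrFun h3 ⟨z, hz⟩).symm⟩, h2⟩
      · rintro ⟨h1, h2⟩
        obtain ⟨h3, h4⟩ := (hK' ξ').1 h1
        have h5 := (huniq ξ' h3.1).2 h4
        exact ⟨⟨h3, h2⟩, funext fun z => (h5 z z.2).symm⟩
    rw [e1, e2]
    exact hIH χ hχ hDχ ξ hξ hc hinv
  have hfin : ∀ N : Subgroup Γ, (IrrS N).Finite := by
    intro N
    obtain ⟨fs, hfs, -⟩ := hS9 Γ N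
    exact fs.finite_toSet.subset fun x hx => (hfs x).2 hx
  refine H2MC.ncard_eq_of_fibres ((hfin X).subset fun χ hχ => hχ.1.1)
    ((hfin (X ⊓ Subgroup.normalizer (P : Set Γ))).subset fun ξ hξ => hξ.1.1)
    (fun χ => fun z : ZA F X X => lam π χ z)
    (fun ξ => fun z : ZA F X X => lam π ξ (br P z)) fun v => ?_
  by_cases h1 : ∃ χ, (χ ∈ Abv X (K0H π ℓ K θ P) ∧ cj γ χ = χ) ∧
      (fun z : ZA F X X => lam π χ z) = v
  · obtain ⟨χ, ⟨⟨hχ, θ₁, hθ₁, hov⟩, hχγ⟩, rfl⟩ := h1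
    have hDχ := (hcb χ hχ θ₁ hθ₁.1 hov hθ₁.2.1).1
    obtain ⟨ξ, hξ, hc⟩ := (hst χ hχ hDχ).1
    exact main χ hχ ξ hξ hc ⟨θ₁, hθ₁.1, hov, hθ₁.2.1⟩ (by rw [hχγ]; exact fun z _ => rfl)
  · by_cases h2 : ∃ ξ, (ξ ∈ Abv (X ⊓ Subgroup.normalizer (P : Set Γ))
          (K0H π ℓ (K ⊓ Subgroup.normalizer (P : Set Γ)) ψ P) ∧ cj γ ξ = ξ) ∧
        (fun z : ZA F X X => lam π ξ (br P z)) = v
    · obtain ⟨ξ, ⟨⟨hξ, ψ₁, hψ₁, hov⟩, hξγ⟩, rfl⟩ := h2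
      obtain ⟨χ, hχ, hc⟩ := hst' hD.1 (hPK.trans hKX) ξ hξ
      have hex := (hud χ hχ ξ hξ hc).2 ⟨ψ₁, hψ₁.1, hov, hψ₁.2.1⟩
      obtain ⟨θ₁, hθ₁, hov₁, hbl₁⟩ := hex
      have hDχ := (hcb χ hχ θ₁ hθ₁ hov₁ hbl₁).1
      have hinv : Blk π X χ (cj γ χ) :=
        (((hst χ hχ hDχ).2 ξ hξ hc).2.2 γ hγ hNm).2 (by rw [hξγ]; exact fun z _ => rfl)
      have h3 := main χ hχ ξ hξ hc ⟨θ₁, hθ₁, hov₁, hbl₁⟩ hinv
      have h4 : (fun z : ZA F X X => lam π χ z) = fun z : ZA F X X => lam π ξ (br P z) :=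
        funext fun z => hc z z.2
      rw [h4] at h3
      exact h3
    · have e1 : {χ | χ ∈ {χ | χ ∈ Abv X (K0H π ℓ K θ P) ∧ cj γ χ = χ} ∧
          (fun z : ZA F X X => lam π χ z) = v} = ∅ :=
        Set.eq_empty_iff_forall_notMem.2 fun χ hχ => h1 ⟨χ, hχ⟩
      have e2 : {ξ | ξ ∈ {ξ | ξ ∈ Abv (X ⊓ Subgroup.normalizer (P : Set Γ))
          (K0H π ℓ (K ⊓ Subgroup.normalizer (P : Set Γ)) ψ P) ∧ cj γ ξ = ξ} ∧
          (fun z : ZA F X X => lam π ξ (br P z)) = v} = ∅ :=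
        Set.eq_empty_iff_forall_notMem.2 fun ξ hξ => h2 ⟨ξ, hξ⟩
      simp only [e1, e2, Set.ncard_empty]

end AMe
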